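import Pool.Agent.Q69.GoldenMain

/-!
# The weighted spectrum of the golden mean is not equidistributed modulo one

The measures `ν_n` do not tend to Lebesgue measure: their first Fourier coefficients do not tend
to `0`.
-/

namespace Pool.Agent.Results.MP_287b0d_an.NotEquidistributed

open Set Filter Topology Real Q69.Golden

/-- The integral of `f` with respect to the probability measure
`ν_n = W_n⁻¹ ∑_{x ∈ X(φ), 0 ≤ x ≤ n} μ(x) δ_{{x}}`, where `W_n = ∑_{x ∈ X(φ), 0 ≤ x ≤ n} μ(x)`. -/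
noncomputable def nuInt (μ : ℝ → ℝ) (n : ℕ) (f : ℝ → ℝ) : ℝ :=
  (∑ᶠ x ∈ Spec ∩ Icc (0 : ℝ) n, μ x * f (Int.fract x)) / (∑ᶠ x ∈ Spec ∩ Icc (0 : ℝ) n, μ x)

/-- Weak-* convergence of `ν_n` to the Lebesgue measure of the unit interval. -/
def Equidistributed (μ : ℝ → ℝ) : Prop :=
  ∀ f : ℝ → ℝ, ContinuousOn f (Icc 0 1) →
    Tendsto (fun n : ℕ => nuInt μ n f) atTop (𝓝 (∫ t in (0 : ℝ)..1, f t))

/-- One-sided cut-off. -/
noncomputable def half (n : ℕ) (F : ℝ → ℝ) (x : ℝ) : ℝ :=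
  open Classical in if x ∈ Icc (0 : ℝ) n then F x else 0

theorem bdd_half (n : ℕ) (F : ℝ → ℝ) : Bdd (half n F) := by
  refine ⟨n, fun x hx => ?_⟩
  unfold half
  rw [if_neg]
  intro h
  rw [abs_of_nonneg h.1] at hx
  linarith [h.2]

theorem J_half {lam : ℝ} {M : ℝ → ℝ} (hM : Mass lam M) {F : ℝ → ℝ} (hF : ∀ x, F (-x) = F x)
    (n : ℕ) : 2 * J M (half n F) = J M (cut n F) + F 0 * M 0 := by
  classical
  have e1 : J M (fun x => half n F (-x)) = J M (half n F) := by
    unfold J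
    have h1 : (fun x => M x * half n F (-x)) = fun x => (fun y => M y * half n F y) (Equiv.neg ℝ x) := by
      funext x
      simp only [Equiv.neg_apply, hM.neg]
    rw [h1]
    exact finsum_comp_equiv (Equiv.neg ℝ) (f := fun y => M y * half n F y)
  have e2 : J M (fun x => if x = 0 then F 0 else 0) = F 0 * M 0 := by
    unfold J
    rw [finsum_eq_single _ 0]
    · simp [mul_comm]
    · intro x hx
      simp [hx]
  have b1 : Bdd (fun x => half n F (-x)) := by
    obtain ⟨R, hR⟩ := bdd_half n F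
    refine ⟨R, fun x hx => hR _ ?_⟩
    rwa [abs_neg]
  have b2 : Bdd (fun x : ℝ => if x = 0 then F 0 else 0) := by
    refine ⟨0, fun x hx => ?_⟩
    exact if_neg (abs_pos.mp hx)
  have hn : (0 : ℝ) ≤ n := Nat.cast_nonneg n
  have e3 : (fun x => half n F x + half n F (-x)) =
      fun x => cut n F x + (if x = 0 then F 0 else 0) := by
    funext x
    unfold half cut
    rcases lt_trichotomy x 0 with hx | hx | hx
    · have c1 : x ∉ Icc (0 : ℝ) n := fun h => absurd h.1 (not_le.mpr hx)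
      rw [if_neg c1, if_neg hx.ne, abs_of_neg hx, zero_add, add_zero, hF]
      by_cases c2 : -x ≤ n
      · rw [if_pos c2, if_pos ⟨by linarith, c2⟩]
      · rw [if_neg c2, if_neg (fun h => c2 h.2)]
    · subst hx
      simp [hn]
    · have c1 : -x ∉ Icc (0 : ℝ) n := fun h => absurd h.1 (by linarith)
      rw [if_neg c1, if_neg hx.ne', abs_of_pos hx, add_zero, add_zero]
      by_cases c2 : x ≤ n
      · rw [if_pos c2, if_pos ⟨hx.le, c2⟩]
      · rw [if_neg c2, if_neg (fun h => c2 h.2)]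
  have e4 := hM.J_add (bdd_half n F) b1
  have e5 := hM.J_add (bdd_cut n F) b2
  rw [e3] at e4
  rw [e1] at e4
  rw [e2] at e5
  linarith

theorem sum_half {lam : ℝ} {M μ : ℝ → ℝ} (hM : Mass lam M) (hμ : ∀ x ∈ Spec, M x = μ x)
    (F : ℝ → ℝ) (n : ℕ) : ∑ᶠ x ∈ Spec ∩ Icc (0 : ℝ) n, μ x * F x = J M (half n F) := by
  rw [finsum_mem_def]
  unfold J
  apply finsum_congr
  intro x
  unfold half
  by_cases hx : x ∈ Spec
  · by_cases hx2 : x ∈ Icc (0 : ℝ) n
    · rw [indicator_of_mem (show x ∈ Spec ∩ Icc (0 : ℝ) n from ⟨hx, hx2⟩), if_pos hx2, hμ x hx]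
    · rw [indicator_of_notMem (fun h => hx2 h.2), if_neg hx2, mul_zero]
  · rw [indicator_of_notMem (fun h => hx h.1), hM.supp x hx, zero_mul]

theorem mass_ge {lam : ℝ} {M : ℝ → ℝ} (hM : Mass lam M) {t : ℝ} (ht : 0 ≤ t) : M 0 ≤ W M t := by
  classical
  have h1 : J M (fun x => if x = 0 then (1 : ℝ) else 0) = M 0 := by
    unfold J
    rw [finsum_eq_single _ 0]
    · simp
    · intro x hx
      simp [hx]
  rw [← h1]
  apply hM.J_mono _ (bdd_cut _ _)
  · intro x _
    unfold cut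
    split_ifs with h1 h2 h2
    · exact le_rfl
    · exfalso; apply h2; rw [h1]; simpa using ht
    · norm_num
    · exact le_rfl
  · refine ⟨0, fun x hx => ?_⟩
    exact if_neg (abs_pos.mp hx)

/-- **The weighted golden mean spectrum is not equidistributed modulo one.** -/
theorem result :
    (∀ R : ℝ, (Spec ∩ Icc (-R) R).Finite) ∧
    (∃ (lam : ℝ) (μ : ℝ → ℝ), IsWeight lam μ) ∧
    ∀ (lam : ℝ) (μ : ℝ → ℝ), IsWeight lam μ →
      (∀ n : ℕ, 0 < ∑ᶠ x ∈ Spec ∩ Icc (0 : ℝ) n, μ x) ∧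
      (∃ ε : ℝ, 0 < ε ∧
        ∃ᶠ n : ℕ in atTop, ε ≤ nuInt μ n (fun t => Real.cos (2 * π * t))) ∧
      ¬ Equidistributed μ := by
  refine ⟨spec_finite, exists_weight, ?_⟩
  intro lam μ h
  obtain ⟨M, hM, hμ⟩ := h.mass
  have hone : ∀ n : ℕ, ∑ᶠ x ∈ Spec ∩ Icc (0 : ℝ) n, μ x = J M (half n (fun _ => 1)) := by
    intro n
    rw [← sum_half hM hμ (fun _ => 1) n]
    simp only [mul_one]
  have hcs : ∀ n : ℕ, ∑ᶠ x ∈ Spec ∩ Icc (0 : ℝ) n, μ x * Real.cos (2 * π * Int.fract x) =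
      J M (half n cs) := by
    intro n
    rw [← sum_half hM hμ cs n]
    have : ∀ x : ℝ, Real.cos (2 * π * Int.fract x) = cs x := by
      intro x
      unfold cs
      have h1 : 2 * π * Int.fract x = 2 * π * x - (⌊x⌋ : ℝ) * (2 * π) := by
        rw [Int.fract]; ring
      rw [h1, Real.cos_sub_int_mul_two_pi]
    simp only [this]
  have e1 : ∀ n : ℕ, 2 * J M (half n (fun _ => 1)) = W M n + 1 * M 0 := fun n =>
    J_half hM (F := fun _ => 1) (fun _ => rfl) n
  have e2 : ∀ n : ℕ, 2 * J M (half n cs) = J M (cut n cs) + cs 0 * M 0 := fun n =>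
    J_half hM (F := cs) (fun x => by unfold cs; rw [mul_neg, Real.cos_neg]) n
  have cs0 : cs 0 = 1 := by simp [cs]
  have hpos : ∀ n : ℕ, 0 < ∑ᶠ x ∈ Spec ∩ Icc (0 : ℝ) n, μ x := by
    intro n
    rw [hone]
    have := e1 n
    have h1 := hM.W_pos (Nat.cast_nonneg n : (0 : ℝ) ≤ n)
    have h2 := hM.zero_pos
    linarith
  have hfreq : ∃ ε : ℝ, 0 < ε ∧
      ∃ᶠ n : ℕ in atTop, ε ≤ nuInt μ n (fun t => Real.cos (2 * π * t)) := by
    obtain ⟨c, hc, hmain⟩ := hM.main
    refine ⟨c / 2, by positivity, ?_⟩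
    rw [frequently_atTop]
    intro n₀
    obtain ⟨n, hn, hle⟩ := hmain n₀
    refine ⟨n, hn, ?_⟩
    unfold nuInt
    rw [le_div_iff₀ (hpos n), hcs, hone]
    have h1 := e1 n
    have h2 := e2 n
    have h3 := hM.zero_pos
    have h4 := mass_ge hM (Nat.cast_nonneg n : (0 : ℝ) ≤ n)
    rw [cs0] at h2
    have h5 : J M (half n (fun _ => 1)) ≤ W M n := by linarith
    have h6 : c / 2 * J M (half n (fun _ => 1)) ≤ c / 2 * W M n :=
      mul_le_mul_of_nonneg_left h5 (by positivity)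
    linarith
  refine ⟨hpos, hfreq, ?_⟩
  intro heq
  obtain ⟨ε, hε, hf⟩ := hfreq
  have h1 := heq (fun t => Real.cos (2 * π * t)) (by fun_prop)
  have h2 : ∫ t in (0 : ℝ)..1, Real.cos (2 * π * t) = 0 := by
    rw [intervalIntegral.integral_comp_mul_left (fun t => Real.cos t) (by positivity)]
    simp
  rw [h2] at h1
  have h3 := h1.eventually (gt_mem_nhds hε)
  obtain ⟨n, hn1, hn2⟩ := (hf.and_eventually h3).exists
  linarith

end Pool.Agent.Results.MP_287b0d_an.NotEquidistributed
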